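import Pool.Agent.Run7.h658.AP.Final

/-!
# A colouring of the plane without red unit distance and without long blue unit-step progressions

The red set is a union of open discs of radius `1 / 2`, whose centres have mutual distance at least `2`
and form finitely many orbits of a hexagonal lattice; it is invariant under rotation by 120 degrees.
That every unit-step progression meets a disc is checked by a certificate which covers the sector of
directions by finitely many ranges and, for each range, the cell of the lattice by finitely many boxes.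
-/

set_option autoImplicit false

namespace Pool.Agent.Results.MP_2b7a4a_co.UnitStepUpperBound

/-- The set `B` contains a progression with `k` terms and unit step: there are points `x`, `v` with
`|v| = 1` such that `x, x + v, …, x + (k - 1) v` lie in `B`. -/
def HasUnitStepProgression (B : Set (EuclideanSpace ℝ (Fin 2))) (k : ℕ) : Prop :=
  ∃ x v : EuclideanSpace ℝ (Fin 2), ‖v‖ = 1 ∧ ∀ n : ℕ, n < k → x + (n : ℝ) • v ∈ B

/-- The set `S` of the problem: the positive integers `k` such that for some red set `R` no two red
points have distance `1` and the complement of `R`, the blue set, contains no progression with `k` terms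
and unit step. -/
def S : Set ℕ := {k | 1 ≤ k ∧ ∃ R : Set (EuclideanSpace ℝ (Fin 2)),
  (∀ p ∈ R, ∀ q ∈ R, dist p q ≠ 1) ∧ ¬ HasUnitStepProgression Rᶜ k}

open Pool.Agent.Run7.h658.AP

theorem isOpen_redC : IsOpen RedC := by
  have h : RedC = ⋃ (j : ℕ) (_ : j < M) (a : ℤ) (b : ℤ),
      Metric.ball (z (cE j + (2 * a + b) * W) (cB j + b * W)) (Pool.Agent.Run7.h658.AP.S : ℝ) := by
    ext w
    simp only [RedC, Set.mem_ofPred_eq, Set.mem_iUnion, Metric.mem_ball, dist_eq_norm, exists_prop]
  rw [h]
  exact isOpen_iUnion fun j => isOpen_iUnion fun _ => isOpen_iUnion fun a => isOpen_iUnion fun b =>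
    Metric.isOpen_ball

theorem continuous_phi : Continuous phi := by
  apply LipschitzWith.continuous (K := 2 * (Pool.Agent.Run7.h658.AP.S : NNReal))
  apply LipschitzWith.of_dist_le_mul
  intro x y
  rw [dist_eq_norm, dist_eq_norm, ← phi_sub, phi_norm]
  push_cast
  exact le_rfl

theorem isOpen_red : IsOpen Red := isOpen_redC.preimage continuous_phi

/-- Every `k ≥ 43` belongs to `S`, so the least element of `S` is at most `43`; and one open red set
serves for all of them. -/
theorem result : (∃ R : Set (EuclideanSpace ℝ (Fin 2)), IsOpen R ∧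
      (∀ p ∈ R, ∀ q ∈ R, dist p q ≠ 1) ∧ ¬ HasUnitStepProgression Rᶜ 43) ∧
    (∀ k : ℕ, 43 ≤ k → k ∈ S) ∧ sInf S ≤ 43 := by
  have h1 : ¬ HasUnitStepProgression Redᶜ 43 := by
    rintro ⟨x, v, hv, h⟩
    obtain ⟨n, hn, h2⟩ := red_progression sector x v hv
    exact h n hn h2
  have h2 : ∀ k : ℕ, 43 ≤ k → k ∈ S := by
    intro k hk
    refine ⟨by omega, Red, fun p hp q hq => red_unit hp hq, ?_⟩
    rintro ⟨x, v, hv, h⟩
    exact h1 ⟨x, v, hv, fun n hn => h n (by omega)⟩
  exact ⟨⟨Red, isOpen_red, fun p hp q hq => red_unit hp hq, h1⟩, h2, Nat.sInf_le (h2 43 le_rfl)⟩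

end Pool.Agent.Results.MP_2b7a4a_co.UnitStepUpperBound
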